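import Pool.Agent.H5.OR.Targets

/-!
Row AC of the board org_modules.
-/

set_option autoImplicit false

open scoped Classical

namespace ORg

theorem pf_AC (TA : T_TA) (TN : T_TN) : T_AC := by
  intro G _ A B S r b am mal g hg u v hu hv gu gv
  by_contra huv
  obtain ⟨-, -, -, -, t5, -, -, -, t9, -⟩ := TA G S
  obtain ⟨-, -, n3⟩ := TN G S
  obtain ⟨b1, ub, vb⟩ := t9 u v huv
  have hb1 : ¬ S.red b1 := (S.red_adj u b1 ub).1 hu
  have hbv : b1 ≠ v := fun h => hb1 (h ▸ hv)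
  obtain ⟨u2, bu, vu⟩ := t9 b1 v hbv
  have hu2 : S.red u2 := by
    by_contra h
    exact hb1 ((S.red_adj b1 u2 bu).2 h)
  have e1 : g • b1 = b1 := (n3 g u v u b1 gu gv ub (t5 u b1 ub).1 vb).2
  have e2 : g • u2 = u2 := (n3 g b1 v b1 u2 e1 gv bu (t5 b1 u2 bu).1 vu).2
  have hne : u2 ≠ u := by
    intro h
    have h1 : S.T.dist v b1 < S.T.dist v u := vb
    have h2 : S.T.dist v u2 < S.T.dist v b1 := vu
    rw [h] at h2
    exact absurd h1 (not_lt.2 h2.le)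
  obtain ⟨h, hr, hb⟩ := am.edge u b1 hu ub
  obtain ⟨k, kr, kb⟩ := am.edge u2 b1 hu2 bu.symm
  have hcA : h⁻¹ * g * h ∈ A := by
    rw [← am.stA, mul_smul, mul_smul, ← hr, gu, inv_smul_eq_iff]
    exact hr
  have hcB : h⁻¹ * g * h ∈ B := by
    rw [← am.stB, mul_smul, mul_smul, ← hb, e1, inv_smul_eq_iff]
    exact hb
  have hc1 : h⁻¹ * g * h ≠ 1 := by
    intro e
    apply hg
    have : g = h * (h⁻¹ * g * h) * h⁻¹ := by group
    rw [this, e]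
    group
  have hxB : k⁻¹ * h ∈ B := by
    rw [← am.stB, mul_smul, ← hb, inv_smul_eq_iff]
    exact kb
  have hxc : (k⁻¹ * h) * (h⁻¹ * g * h) * (k⁻¹ * h)⁻¹ ∈ A := by
    have e : (k⁻¹ * h) * (h⁻¹ * g * h) * (k⁻¹ * h)⁻¹ = k⁻¹ * g * k := by group
    rw [e, ← am.stA, mul_smul, mul_smul, ← kr, e2, inv_smul_eq_iff]
    exact kr
  have hxA : k⁻¹ * h ∈ A := mal _ hxB _ hcA hcB hc1 hxc
  rw [← am.stA, mul_smul, inv_smul_eq_iff, ← hr, ← kr] at hxA
  exact hne hxA.symm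

end ORg
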