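import Pool.Agent.H5.OR.Targets

/-!
Row MB of the board org_modules.
-/

set_option autoImplicit false

open scoped Classical

namespace ORg

namespace MBx

variable {X : Type}

theorem lw_nv (x : X × Bool) : lw (nv x) = (lw x)⁻¹ := by
  unfold lw nv
  rw [FreeGroup.inv_mk]
  rfl

theorem lw_inj {x y : X × Bool} (h : lw x = lw y) : x = y := by
  have h2 := congrArg FreeGroup.toWord h
  unfold lw at h2
  rw [FreeGroup.toWord_mk, FreeGroup.toWord_mk, FreeGroup.reduce_singleton,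
    FreeGroup.reduce_singleton] at h2
  exact List.head_eq_of_cons_eq h2

theorem nv_nv (x : X × Bool) : nv (nv x) = x := by
  unfold nv
  simp

/-- the line `g * u` passes through `p` in the direction `x` -/
def Dir (lt : ℤ → X × Bool) (u : ℤ → FreeGroup X) (p g : FreeGroup X) (x : X × Bool) : Prop :=
  ∃ k, g * u k = p ∧ (x = lt k ∨ x = nv (lt (k - 1)))

variable {w : FreeGroup X} {L : ℕ} {lt : ℤ → X × Bool} {u : ℤ → FreeGroup X}

theorem step_back (hL : Ln w L lt u) (k : ℤ) : u (k - 1) = u k * lw (nv (lt (k - 1))) := by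
  have h := hL.step (k - 1)
  rw [sub_add_cancel] at h
  rw [lw_nv, h, mul_assoc, mul_inv_cancel, mul_one]

theorem dir_next (hL : Ln w L lt u) {p g : FreeGroup X} {x : X × Bool}
    (h : Dir lt u p g x) : ∃ k, g * u k = p ∧
      ((x = lt k ∧ g * u (k + 1) = p * lw x) ∨ (x = nv (lt (k - 1)) ∧ g * u (k - 1) = p * lw x)) := by
  obtain ⟨k, hk, h1 | h1⟩ := h
  · refine ⟨k, hk, Or.inl ⟨h1, ?_⟩⟩
    rw [hL.step k, ← mul_assoc, hk, h1]
  · refine ⟨k, hk, Or.inr ⟨h1, ?_⟩⟩
    rw [step_back hL k, ← mul_assoc, hk, h1]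

theorem ray (CA : T_CA) (CL : T_CL) (hL : Ln w L lt u) {p g : FreeGroup X} {x : X × Bool}
    (hD : Dir lt u p g x) {U : FreeGroup X → Bool} {c1 c2 : Bool} (hc : Col U u g c1)
    (hf : {h | h ∈ Cn p x ∧ U h ≠ c2}.Finite) : c1 = c2 := by
  by_contra hne
  obtain ⟨-, -, -, -, ca5, -, -⟩ := CA X p
  obtain ⟨cl1, cl2, cl3, -, -, -, -, -⟩ := CL X w L lt u hL
  obtain ⟨N, hN⟩ := hc
  obtain ⟨k, hk, h1 | h1⟩ := hD
  · have hinj : Function.Injective (fun n : ℕ => g * u (k + 1 + n + N + |k|)) := by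
      intro a b hab
      have h2 := cl3 (mul_left_cancel hab)
      have h3 : (a : ℤ) = b := by linarith
      exact_mod_cast h3
    refine hf.not_infinite (Set.infinite_of_injective_forall_mem hinj ?_)
    intro n
    have hk0 := neg_abs_le k
    have hk1 := abs_nonneg k
    constructor
    · have h4 := cl1 k (k + 1 + n + N + |k|) (by linarith [(Nat.cast_nonneg n : (0 : ℤ) ≤ n), (Nat.cast_nonneg N : (0 : ℤ) ≤ N)])
      obtain ⟨-, -, -, -, ca, -, -⟩ := CA X (u k)
      have h5 := (ca g (u (k + 1 + n + N + |k|)) (lt k)).2 h4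
      rw [hk, ← h1] at h5
      exact h5
    · show U (g * u (k + 1 + n + N + |k|)) ≠ c2
      rw [hN _ (le_trans _ (le_abs_self _))]
      · exact hne
      · linarith [(Nat.cast_nonneg n : (0 : ℤ) ≤ n)]
  · have hinj : Function.Injective (fun n : ℕ => g * u (k - 1 - n - N - |k|)) := by
      intro a b hab
      have h2 := cl3 (mul_left_cancel hab)
      have h3 : (a : ℤ) = b := by linarith
      exact_mod_cast h3
    refine hf.not_infinite (Set.infinite_of_injective_forall_mem hinj ?_)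
    intro n
    have hk0 := le_abs_self k
    have hk1 := abs_nonneg k
    constructor
    · have h4 := cl2 k (k - 1 - n - N - |k|) (by linarith [(Nat.cast_nonneg n : (0 : ℤ) ≤ n), (Nat.cast_nonneg N : (0 : ℤ) ≤ N)])
      obtain ⟨-, -, -, -, ca, -, -⟩ := CA X (u k)
      have h5 := (ca g (u (k - 1 - n - N - |k|)) (nv (lt (k - 1)))).2 h4
      rw [hk, ← h1] at h5
      exact h5
    · show U (g * u (k - 1 - n - N - |k|)) ≠ c2
      rw [hN _ (le_trans _ (neg_le_abs _))]
      · exact hne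
      · linarith [(Nat.cast_nonneg n : (0 : ℤ) ≤ n)]

theorem not_zp (CA : T_CA) (CL : T_CL) (hL : Ln w L lt u) {i : ℤ} {g : FreeGroup X}
    {x : X × Bool} (hD : Dir lt u (u (i + 1)) g x) (hy : x ≠ nv (lt i)) (hz : x ≠ lt (i + 1)) :
    g ∉ Subgroup.zpowers w := by
  rintro ⟨m, hm⟩
  have hm' : w ^ m = g := hm
  obtain ⟨-, -, -, ca4, -, -, -⟩ := CA X (u (i + 1))
  obtain ⟨-, -, -, cl4, -, -, cl7, -⟩ := CL X w L lt u hL
  have key : ∀ j, u j ∉ Cn (u (i + 1)) x := by
    apply cl7 (i + 1) x _ hz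
    rw [add_sub_cancel_right]
    exact hy
  obtain ⟨k, hk, ⟨-, h⟩ | ⟨-, h⟩⟩ := dir_next hL hD
  · apply key (k + 1 + L * m)
    rw [cl4, hm', h]
    exact (ca4 _ x).2 (Or.inl rfl)
  · apply key (k - 1 + L * m)
    rw [cl4, hm', h]
    exact (ca4 _ x).2 (Or.inl rfl)

theorem thr (hL : Ln w L lt u) {i : ℤ} {g : FreeGroup X}
    (hD : Dir lt u (u (i + 1)) g (nv (lt i))) : Thr u g i := by
  have e : u (i + 1) * lw (nv (lt i)) = u i := by
    rw [hL.step i, lw_nv, mul_assoc, mul_inv_cancel, mul_one]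
  obtain ⟨k, hk, ⟨-, h⟩ | ⟨-, h⟩⟩ := dir_next hL hD
  · rw [e] at h
    exact ⟨k, Or.inr ⟨hk, h⟩⟩
  · rw [e] at h
    refine ⟨k - 1, Or.inl ⟨h, ?_⟩⟩
    rw [sub_add_cancel]
    exact hk

theorem first (CA : T_CA) (CL : T_CL) (hL : Ln w L lt u) (hW : WhG lt) (U : FreeGroup X → Bool)
    (c : Bool) (i : ℤ) (H1 : ∀ g, g ∉ Subgroup.zpowers w → ∃ c', Col U u g c')
    (H2 : ∀ x, x ≠ nv (lt i) → x ≠ lt (i + 1) →
      ∃ c', {g | g ∈ Cn (u (i + 1)) x ∧ U g ≠ c'}.Finite)
    (H3 : ∀ g, g ∉ Subgroup.zpowers w → Thr u g i → Col U u g c) (x : X × Bool)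
    (hy : x ≠ nv (lt i)) (hz : x ≠ lt (i + 1)) :
    {g | g ∈ Cn (u (i + 1)) x ∧ U g ≠ c}.Finite := by
  have hyz : nv (lt i) ≠ lt (i + 1) := fun h => hL.red i h.symm
  have hch := hW (lt (i + 1)) x (nv (lt i)) hz hyz
  induction hch using Relation.ReflTransGen.head_induction_on with
  | refl => exact absurd rfl hy
  | @head s t hR _ ih =>
    obtain ⟨hs, ht, k, hk⟩ := hR
    have hg : (u (i + 1) * (u k)⁻¹) * u k = u (i + 1) := by group
    have hDs : Dir lt u (u (i + 1)) (u (i + 1) * (u k)⁻¹) s := by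
      refine ⟨k, hg, ?_⟩
      rcases hk with ⟨h, -⟩ | ⟨-, h⟩
      · exact Or.inr h
      · exact Or.inl h
    have hDt : Dir lt u (u (i + 1)) (u (i + 1) * (u k)⁻¹) t := by
      refine ⟨k, hg, ?_⟩
      rcases hk with ⟨-, h⟩ | ⟨h, -⟩
      · exact Or.inl h
      · exact Or.inr h
    have hgz := not_zp CA CL hL hDs hy hz
    obtain ⟨c'', hc''⟩ := H2 s hy hz
    by_cases hty : t = nv (lt i)
    · subst hty
      have h1 := H3 _ hgz (thr hL hDt)
      rw [ray CA CL hL hDs h1 hc'']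
      exact hc''
    · have h2 := ih hty ht
      obtain ⟨c', hc'⟩ := H1 _ hgz
      rw [← ray CA CL hL hDt hc' h2, ray CA CL hL hDs hc' hc'']
      exact hc''

end MBx

open MBx in
theorem pf_MB (CA : T_CA) (CL : T_CL) : T_MB := by
  intro X _ w L lt u hL hW U c i H1 H2 H3
  have R1 := first CA CL hL hW U c i H1 H2 H3
  refine ⟨R1, ?_⟩
  intro g hg hT
  have key : ∃ s, s ≠ lt (i + 1) ∧ Dir lt u (u (i + 1)) g s := by
    obtain ⟨j, ⟨h1, h2⟩ | ⟨h1, h2⟩⟩ := hT
    · have e : lt j = lt (i + 1) := by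
        rw [hL.step j, hL.step (i + 1), ← mul_assoc, h1] at h2
        exact lw_inj (mul_left_cancel h2)
      refine ⟨nv (lt (j - 1)), ?_, j, h1, Or.inr rfl⟩
      rw [← e]
      have h3 := hL.red (j - 1)
      rw [sub_add_cancel] at h3
      exact h3.symm
    · have e : nv (lt j) = lt (i + 1) := by
        rw [hL.step (i + 1), ← h2, hL.step j] at h1
        apply lw_inj
        rw [lw_nv]
        have h3 : g * u j = g * u j * (lw (lt j) * lw (lt (i + 1))) := by
          rw [← mul_assoc]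
          nth_rewrite 1 [h1]
          group
        have h4 := mul_eq_left.1 h3.symm
        exact (eq_inv_of_mul_eq_one_right h4).symm
      refine ⟨lt (j + 1), ?_, j + 1, h2, Or.inl rfl⟩
      rw [← e]
      exact hL.red j
  obtain ⟨s, hsz, hD⟩ := key
  by_cases hsy : s = nv (lt i)
  · subst hsy
    exact H3 g hg (thr hL hD)
  · obtain ⟨c', hc'⟩ := H1 g hg
    rw [← ray CA CL hL hD hc' (R1 s hsy hsz)]
    exact hc'

end ORg
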