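import Pool.Agent.H5.OR.Targets3

/-!
MP_e1fd52_al, rows SG and SI of the board ors_modules: stars of groups.
-/

namespace Pool.Agent.H42.OR

open ORg

/-- SG: a star of groups is generated by the vertex groups -/
theorem pf_SG : T_SG := by
  intro I H B A G _ _ _ _ f g a b h
  rw [eq_top_iff]
  intro x _
  have hA : ∀ y : A, a y ∈ a.range ⊔ ⨆ i, (b i).range :=
    fun y => Subgroup.mem_sup_left ⟨y, rfl⟩
  have hB : ∀ i, ∀ y : B i, b i y ∈ a.range ⊔ ⨆ i, (b i).range := fun i y =>
    Subgroup.mem_sup_right (Subgroup.mem_iSup_of_mem i ⟨y, rfl⟩)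
  obtain ⟨k, hk1, hk2⟩ := h.lift (a.range ⊔ ⨆ i, (b i).range : Subgroup G)
    (a.codRestrict _ hA) (fun i => (b i).codRestrict _ (hB i))
    (fun i y => Subtype.ext (h.comm i y))
  have h1 : ((a.range ⊔ ⨆ i, (b i).range : Subgroup G).subtype.comp k) = MonoidHom.id G := by
    refine h.uniq G _ _ (fun y => ?_) (fun i y => ?_)
    · rw [MonoidHom.comp_apply, hk1]
      rfl
    · rw [MonoidHom.comp_apply, hk2]
      rfl
  have h2 : ((k x : (a.range ⊔ ⨆ i, (b i).range : Subgroup G)) : G) = x :=
    DFunLike.congr_fun h1 x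
  rw [← h2]
  exact (k x).2

/-- the family of the two groups -/
def fam (A B : Type) : Bool → Type := fun i => Bool.rec B A i

instance famGroup (A B : Type) [Group A] [Group B] (i : Bool) : Group (fam A B i) :=
  match i with
  | true => (inferInstance : Group A)
  | false => (inferInstance : Group B)

/-- the family of the two maps -/
def fmap {H A B : Type} [Group H] [Group A] [Group B] (f : H →* A) (g : H →* B) :
    ∀ i : Bool, H →* fam A B i
  | true => f
  | false => g

/-- SI: the vertex groups embed -/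
theorem pf_SI : T_SI := by
  intro I H B A G _ _ _ _ f g a b h hf hg
  have hinj : ∀ i, ∀ j, Function.Injective (fmap (f i) (g i) j) := by
    rintro i (_ | _)
    · exact hg i
    · exact hf i
  obtain ⟨φ, hφ⟩ : ∃ φ : ∀ i, A →* Monoid.PushoutI (fmap (f i) (g i)),
      φ = fun i => Monoid.PushoutI.of (φ := fmap (f i) (g i)) true := ⟨_, rfl⟩
  have hφi : ∀ i, Function.Injective (φ i) := by
    intro i
    rw [hφ]
    exact Monoid.PushoutI.of_injective (hinj i) true
  obtain ⟨ψ, hψ⟩ : ∃ ψ : ∀ i, B i →* Monoid.PushoutI (fmap (f i) (g i)),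
      ψ = fun i => Monoid.PushoutI.of (φ := fmap (f i) (g i)) false := ⟨_, rfl⟩
  have hψi : ∀ i, Function.Injective (ψ i) := by
    intro i
    rw [hψ]
    exact Monoid.PushoutI.of_injective (hinj i) false
  have hc : ∀ i y, φ i (f i y) = ψ i (g i y) := by
    intro i y
    rw [hφ, hψ]
    have h1 := Monoid.PushoutI.of_apply_eq_base (fmap (f i) (g i)) true y
    have h2 := Monoid.PushoutI.of_apply_eq_base (fmap (f i) (g i)) false y
    exact h1.trans h2.symm
  obtain ⟨k, hk1, hk2⟩ := h.lift (Monoid.PushoutI φ) (Monoid.PushoutI.base φ)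
    (fun i => (Monoid.PushoutI.of (φ := φ) i).comp (ψ i))
    (fun i y => by
      rw [MonoidHom.comp_apply, ← hc i y]
      exact (Monoid.PushoutI.of_apply_eq_base φ i (f i y)).symm)
  have hof : ∀ i, Function.Injective (Monoid.PushoutI.of (φ := φ) i) :=
    fun i => Monoid.PushoutI.of_injective hφi i
  refine ⟨?_, fun i => ?_⟩
  · rcases isEmpty_or_nonempty I with hI | ⟨⟨i⟩⟩
    · obtain ⟨k', hk1', -⟩ := h.lift A (MonoidHom.id A) (fun i => isEmptyElim i)
        (fun i => isEmptyElim i)
      intro x y hxy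
      have h3 := (hk1' x).symm.trans ((congrArg k' hxy).trans (hk1' y))
      exact h3
    · intro x y hxy
      have h3 := (hk1 x).symm.trans ((congrArg k hxy).trans (hk1 y))
      rw [← Monoid.PushoutI.of_apply_eq_base φ i x, ← Monoid.PushoutI.of_apply_eq_base φ i y] at h3
      exact hφi i (hof i h3)
  · intro x y hxy
    have h3 := (hk2 i x).symm.trans ((congrArg k hxy).trans (hk2 i y))
    exact hψi i (hof i h3)

end Pool.Agent.H42.OR
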